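import Pool.Agent.GEN.StmtsT

set_option autoImplicit false

/-! Row SCL of the squad GEN: normal form of `TorInd`. -/

namespace Pool.Agent.GEN.H43

open Finset MvPolynomial Pool.Agent.GEN

/-- rescaling of the variables -/
noncomputable def resc {σ : Type} (t : σ → ℂ) (ht : ∀ i, t i ≠ 0) :
    MvPolynomial σ ℂ ≃ₐ[ℂ] MvPolynomial σ ℂ :=
  AlgEquiv.ofAlgHom (aeval (fun i => C (t i) * X i)) (aeval (fun i => C (t i)⁻¹ * X i))
    (by
      ext i : 1
      simp only [AlgHom.comp_apply, aeval_X, map_mul, AlgHom.id_apply]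
      rw [← algebraMap_eq, AlgHom.commutes, algebraMap_eq, ← mul_assoc, ← C_mul,
        inv_mul_cancel₀ (ht i), C_1, one_mul])
    (by
      ext i : 1
      simp only [AlgHom.comp_apply, aeval_X, map_mul, AlgHom.id_apply]
      rw [← algebraMap_eq, AlgHom.commutes, algebraMap_eq, ← mul_assoc, ← C_mul,
        mul_inv_cancel₀ (ht i), C_1, one_mul])

theorem resc_X {σ : Type} (t : σ → ℂ) (ht : ∀ i, t i ≠ 0) (i : σ) :
    resc t ht (X i) = C (t i) * X i := by
  unfold resc
  rw [AlgEquiv.ofAlgHom_apply, aeval_X]

theorem resc_apply {σ : Type} (t : σ → ℂ) (ht : ∀ i, t i ≠ 0) (F : MvPolynomial σ ℂ) :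
    resc t ht F = aeval (fun i => C (t i) * X i) F := rfl

theorem coeff_resc {σ : Type} (t : σ → ℂ) (ht : ∀ i, t i ≠ 0) (F : MvPolynomial σ ℂ)
    (α : σ →₀ ℕ) : coeff α (resc t ht F) = (α.prod fun i n => t i ^ n) * coeff α F := by
  classical
  induction F using MvPolynomial.induction_on' with
  | monomial β c =>
    rw [resc_apply, aeval_monomial]
    have e : (β.prod fun i n => (C (t i) * X i : MvPolynomial σ ℂ) ^ n) =
        C (β.prod fun i n => t i ^ n) * monomial β 1 := by
      rw [monomial_eq, C_1, one_mul]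
      unfold Finsupp.prod
      rw [map_prod, ← Finset.prod_mul_distrib]
      refine Finset.prod_congr rfl (fun i _ => ?_)
      dsimp only
      rw [mul_pow, C_pow]
    rw [e, algebraMap_eq, ← mul_assoc, ← C_mul, coeff_C_mul, coeff_monomial, coeff_monomial]
    by_cases h : β = α
    · rw [if_pos h, if_pos h, h]
      ring
    · rw [if_neg h, if_neg h]
      ring
  | add p q hp hq =>
    rw [map_add, coeff_add, coeff_add, hp, hq]
    ring

theorem scl : SclStmt := by
  classical
  intro k _ _ σ G hG
  obtain ⟨a, t, hi⟩ := hG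
  by_cases hG0 : G = 0
  · subst hG0
    refine ⟨1, fun _ => 1, resc (fun _ => 1) (fun _ => one_ne_zero), one_ne_zero,
      fun _ => one_ne_zero, fun i => resc_X _ _ i, ?_, ?_⟩
    · rw [map_zero, map_zero, mul_zero]
      simp
    · have hE : IsEmpty ((C (1 : ℂ) * resc (fun _ : σ => (1 : ℂ)) (fun _ => one_ne_zero)
          (MvPolynomial.map (algebraMap k ℂ) 0)).support) := by
        constructor
        rintro ⟨x, hx⟩
        rw [map_zero, map_zero, mul_zero] at hx
        simp at hx
      exact algebraicIndependent_empty_type_iff.2 (algebraMap ℚ ℂ).injective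
  · have hne : ∀ α ∈ G.support, a * (α.prod fun i n => t i ^ n) * algebraMap k ℂ (G.coeff α) ≠ 0 :=
      fun α hα => hi.ne_zero ⟨α, hα⟩
    obtain ⟨α0, hα0⟩ := MvPolynomial.support_nonempty.2 hG0
    have ha : a ≠ 0 := by
      intro h
      apply hne α0 hα0
      rw [h, zero_mul, zero_mul]
    set t' : σ → ℂ := fun i => if t i = 0 then 1 else t i with ht'
    have ht'0 : ∀ i, t' i ≠ 0 := by
      intro i
      rw [ht']
      dsimp only
      split_ifs with h
      · exact one_ne_zero
      · exact h
    have hprod : ∀ α ∈ G.support, (α.prod fun i n => t' i ^ n) = α.prod fun i n => t i ^ n := by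
      intro α hα
      have h1 := hne α hα
      have h2 : (α.prod fun i n => t i ^ n) ≠ 0 := by
        intro h
        apply h1
        rw [h, mul_zero, zero_mul]
      unfold Finsupp.prod at h2 ⊢
      rw [Finset.prod_ne_zero_iff] at h2
      refine Finset.prod_congr rfl (fun i hi => ?_)
      have h3 : t i ≠ 0 := by
        intro h
        apply h2 i hi
        dsimp only
        rw [h, zero_pow (Finsupp.mem_support_iff.1 hi)]
      rw [ht']
      dsimp only
      rw [if_neg h3]
    have hc : ∀ α, (C a * resc t' ht'0 (MvPolynomial.map (algebraMap k ℂ) G)).coeff α =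
        a * (α.prod fun i n => t' i ^ n) * algebraMap k ℂ (G.coeff α) := by
      intro α
      rw [coeff_C_mul, coeff_resc, coeff_map, mul_assoc]
    have hs : (C a * resc t' ht'0 (MvPolynomial.map (algebraMap k ℂ) G)).support = G.support := by
      ext α
      rw [mem_support_iff, mem_support_iff, hc]
      constructor
      · intro h h2
        apply h
        rw [h2, map_zero, mul_zero]
      · intro h
        refine mul_ne_zero (mul_ne_zero ha ?_) ?_
        · unfold Finsupp.prod
          exact Finset.prod_ne_zero_iff.2 (fun i _ => pow_ne_zero _ (ht'0 i))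
        · exact (map_ne_zero _).2 h
    refine ⟨a, t', resc t' ht'0, ha, ht'0, fun i => resc_X _ _ i, hs, ?_⟩
    have hj := hi.comp
      (fun α : (C a * resc t' ht'0 (MvPolynomial.map (algebraMap k ℂ) G)).support =>
        (⟨(α : σ →₀ ℕ), hs ▸ α.2⟩ : G.support)) (by
        intro x y h
        apply Subtype.ext
        exact congrArg (fun z : G.support => (z : σ →₀ ℕ)) h)
    have hfun : (fun α : (C a * resc t' ht'0
        (MvPolynomial.map (algebraMap k ℂ) G)).support => (C a * resc t' ht'0
        (MvPolynomial.map (algebraMap k ℂ) G)).coeff (α : σ →₀ ℕ)) =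
        ((fun α : G.support => (a * ((α : σ →₀ ℕ).prod fun i n => t i ^ n) *
          algebraMap k ℂ (G.coeff (α : σ →₀ ℕ)))) ∘
        (fun α : (C a * resc t' ht'0 (MvPolynomial.map (algebraMap k ℂ) G)).support =>
          (⟨(α : σ →₀ ℕ), hs ▸ α.2⟩ : G.support))) := by
      funext α
      rw [hc, hprod _ (hs ▸ α.2)]
      rfl
    rw [hfun]
    exact hj

end Pool.Agent.GEN.H43
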